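import Mathlib

/-!
Restriction of scalars on Ext groups, in unbundled form.
-/

namespace Pool.Agent.Helper46.TT

open CategoryTheory Abelian

section Res

variable (A C : Type) [CommRing A] [CommRing C] [Algebra A C]

/-- The restricted module. -/
noncomputable abbrev rs (X : Type) [AddCommGroup X] [Module C X] : ModuleCat A :=
  (ModuleCat.restrictScalars (algebraMap A C)).obj (ModuleCat.of C X)

/-- The restricted module is the module itself. -/
noncomputable def resHom (X : Type) [AddCommGroup X] [Module A X] [Module C X] [IsScalarTower A C X] :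
    (rs A C X) ⟶ ModuleCat.of A X :=
  ModuleCat.ofHom (X := rs A C X)
    { toFun := fun x => x
      map_add' := fun _ _ => rfl
      map_smul' := fun a x => algebraMap_smul (M := X) C a x }

/-- The restricted module is the module itself. -/
noncomputable def resInv (X : Type) [AddCommGroup X] [Module A X] [Module C X] [IsScalarTower A C X] :
    ModuleCat.of A X ⟶ (rs A C X) :=
  ModuleCat.ofHom (Y := rs A C X)
    { toFun := fun x => x
      map_add' := fun _ _ => rfl
      map_smul' := fun a x => (algebraMap_smul (M := X) C a x).symm }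

variable {X Y Z : Type} [AddCommGroup X] [Module A X] [Module C X] [IsScalarTower A C X]
  [AddCommGroup Y] [Module A Y] [Module C Y] [IsScalarTower A C Y]
  [AddCommGroup Z] [Module A Z] [Module C Z] [IsScalarTower A C Z]

lemma resHom_inv : resHom A C X ≫ resInv A C X = 𝟙 _ := rfl

lemma resInv_hom : resInv A C X ≫ resHom A C X = 𝟙 _ := rfl

lemma resHom_nat (g : X →ₗ[C] Y) :
    (ModuleCat.restrictScalars (algebraMap A C)).map (ModuleCat.ofHom g) ≫ resHom A C Y =
      resHom A C X ≫ ModuleCat.ofHom (g.restrictScalars A) := rfl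

/-- Restriction of scalars on Ext. -/
noncomputable def resExt {n : ℕ} (ξ : Ext (ModuleCat.of C X) (ModuleCat.of C Y) n) :
    Ext (ModuleCat.of A X) (ModuleCat.of A Y) n :=
  (Ext.mk₀ (resInv A C X)).comp
    ((ξ.mapExactFunctor (ModuleCat.restrictScalars (algebraMap A C))).comp
      (Ext.mk₀ (resHom A C Y)) (add_zero n)) (zero_add n)

lemma resExt_zero {n : ℕ} : resExt A C (0 : Ext (ModuleCat.of C X) (ModuleCat.of C Y) n) = 0 := by
  simp [resExt]

lemma resExt_add {n : ℕ} (ξ η : Ext (ModuleCat.of C X) (ModuleCat.of C Y) n) :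
    resExt A C (ξ + η) = resExt A C ξ + resExt A C η := by
  simp [resExt]

lemma resExt_mk₀ (g : X →ₗ[C] Y) :
    resExt A C (Ext.mk₀ (ModuleCat.ofHom g)) = Ext.mk₀ (ModuleCat.ofHom (g.restrictScalars A)) := by
  rw [resExt, Ext.mapExactFunctor_mk₀, Ext.mk₀_comp_mk₀, resHom_nat, Ext.mk₀_comp_mk₀]
  rfl

lemma resExt_comp {a b c : ℕ} (ξ : Ext (ModuleCat.of C X) (ModuleCat.of C Y) a)
    (η : Ext (ModuleCat.of C Y) (ModuleCat.of C Z) b) (h : a + b = c) :
    resExt A C (ξ.comp η h) = (resExt A C ξ).comp (resExt A C η) h := by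
  simp only [resExt, Ext.mapExactFunctor_comp]
  rw [Ext.comp_assoc (a₁₂ := a) (a₂₃ := c) _ _ _ (by lia) (by lia) (by lia)]
  congr 1
  rw [Ext.comp_assoc (a₁₂ := a) (a₂₃ := b) _ _ _ (by lia) (by lia) (by lia),
    ← Ext.comp_assoc (a₁₂ := 0) (a₂₃ := b) (Ext.mk₀ (resHom A C Y)) _ _ (by lia) (by lia) (by lia),
    Ext.mk₀_comp_mk₀, resHom_inv, Ext.mk₀_id_comp,
    Ext.comp_assoc (a₁₂ := c) (a₂₃ := b) _ _ _ (by lia) (by lia) (by lia)]

end Res

section Cls

variable {C : Type} [CommRing C] {K F N : Type} [AddCommGroup K] [Module C K]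
  [AddCommGroup F] [Module C F] [AddCommGroup N] [Module C N]

/-- The short complex of modules. -/
def sc (f : K →ₗ[C] F) (g : F →ₗ[C] N) (h : Function.Exact f g) : ShortComplex (ModuleCat C) :=
  ShortComplex.mk (ModuleCat.ofHom f) (ModuleCat.ofHom g) (by
    rw [← ModuleCat.ofHom_comp, h.linearMap_comp_eq_zero]; rfl)

lemma sc_shortExact (f : K →ₗ[C] F) (g : F →ₗ[C] N) (h : Function.Exact f g)
    (hf : Function.Injective f) (hg : Function.Surjective g) : (sc f g h).ShortExact := by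
  have h1 : Mono (sc f g h).f := (ModuleCat.mono_iff_injective _).2 hf
  have h2 : Epi (sc f g h).g := (ModuleCat.epi_iff_surjective _).2 hg
  refine ⟨?_⟩
  rw [ShortComplex.ShortExact.moduleCat_exact_iff_function_exact]
  exact h

/-- The class of an extension. -/
noncomputable def cls (f : K →ₗ[C] F) (g : F →ₗ[C] N) (h : Function.Exact f g)
    (hf : Function.Injective f) (hg : Function.Surjective g) :
    Ext (ModuleCat.of C N) (ModuleCat.of C K) 1 :=
  (sc_shortExact f g h hf hg).extClass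

lemma les₃ (f : K →ₗ[C] F) (g : F →ₗ[C] N) (h : Function.Exact f g)
    (hf : Function.Injective f) (hg : Function.Surjective g) (Y : ModuleCat C) {n : ℕ}
    (ξ : Ext (ModuleCat.of C N) Y (n + 1))
    (h0 : (Ext.mk₀ (ModuleCat.ofHom g)).comp ξ (zero_add _) = 0) :
    ∃ ξ' : Ext (ModuleCat.of C K) Y n, (cls f g h hf hg).comp ξ' (add_comm 1 n) = ξ :=
  Ext.contravariant_sequence_exact₃ (sc_shortExact f g h hf hg) Y ξ h0 (add_comm 1 n)

lemma les₁ (f : K →ₗ[C] F) (g : F →ₗ[C] N) (h : Function.Exact f g)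
    (hf : Function.Injective f) (hg : Function.Surjective g) (Y : ModuleCat C) {n : ℕ}
    (ξ : Ext (ModuleCat.of C K) Y n)
    (h0 : (cls f g h hf hg).comp ξ (add_comm 1 n) = 0) :
    ∃ η : Ext (ModuleCat.of C F) Y n, (Ext.mk₀ (ModuleCat.ofHom f)).comp η (zero_add n) = ξ :=
  Ext.contravariant_sequence_exact₁ (sc_shortExact f g h hf hg) Y ξ (add_comm 1 n) h0

lemma cls_comp_f (f : K →ₗ[C] F) (g : F →ₗ[C] N) (h : Function.Exact f g)
    (hf : Function.Injective f) (hg : Function.Surjective g) (Y : ModuleCat C) {n : ℕ}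
    (γ : Ext (ModuleCat.of C F) Y n) :
    (cls f g h hf hg).comp ((Ext.mk₀ (ModuleCat.ofHom f)).comp γ (zero_add n))
      (add_comm 1 n) = 0 :=
  (sc_shortExact f g h hf hg).extClass_comp_assoc γ

lemma mk₀_ofHom_bij : Function.Bijective
    (fun g : K →ₗ[C] F => (Ext.mk₀ (ModuleCat.ofHom g) :
      Ext (ModuleCat.of C K) (ModuleCat.of C F) 0)) := by
  constructor
  · intro g g' h
    exact congrArg ModuleCat.Hom.hom ((Ext.mk₀_bijective _ _).1 h)
  · intro ξ
    obtain ⟨g, rfl⟩ := (Ext.mk₀_bijective _ _).2 ξ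
    exact ⟨g.hom, rfl⟩

lemma mk₀_ofHom_comp (g : K →ₗ[C] F) (g' : F →ₗ[C] N) :
    (Ext.mk₀ (ModuleCat.ofHom g)).comp (Ext.mk₀ (ModuleCat.ofHom g')) (zero_add 0) =
      Ext.mk₀ (ModuleCat.ofHom (g' ∘ₗ g)) :=
  Ext.mk₀_comp_mk₀ _ _

lemma mk₀_ofHom_comp_assoc (g : K →ₗ[C] F) (g' : F →ₗ[C] N) {Y : ModuleCat C} {n : ℕ}
    (ξ : Ext (ModuleCat.of C N) Y n) :
    (Ext.mk₀ (ModuleCat.ofHom g)).comp ((Ext.mk₀ (ModuleCat.ofHom g')).comp ξ (zero_add n))
      (zero_add n) = (Ext.mk₀ (ModuleCat.ofHom (g' ∘ₗ g))).comp ξ (zero_add n) :=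
  Ext.mk₀_comp_mk₀_assoc _ _ _

lemma comp_mk₀_ofHom_assoc (g : K →ₗ[C] F) (g' : F →ₗ[C] N) {Y : ModuleCat C} {n : ℕ}
    (ξ : Ext Y (ModuleCat.of C K) n) :
    (ξ.comp (Ext.mk₀ (ModuleCat.ofHom g)) (add_zero n)).comp (Ext.mk₀ (ModuleCat.ofHom g'))
      (add_zero n) = ξ.comp (Ext.mk₀ (ModuleCat.ofHom (g' ∘ₗ g))) (add_zero n) := by
  rw [Ext.comp_assoc (a₁₂ := n) (a₂₃ := 0) _ _ _ (by lia) (by lia) (by lia), mk₀_ofHom_comp]

lemma cls_natural {K' F' N' : Type} [AddCommGroup K'] [Module C K']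
    [AddCommGroup F'] [Module C F'] [AddCommGroup N'] [Module C N']
    (f : K →ₗ[C] F) (g : F →ₗ[C] N) (h : Function.Exact f g)
    (hf : Function.Injective f) (hg : Function.Surjective g)
    (f' : K' →ₗ[C] F') (g' : F' →ₗ[C] N') (h' : Function.Exact f' g')
    (hf' : Function.Injective f') (hg' : Function.Surjective g')
    (a : K →ₗ[C] K') (b : F →ₗ[C] F') (c : N →ₗ[C] N')
    (hab : b ∘ₗ f = f' ∘ₗ a) (hbc : c ∘ₗ g = g' ∘ₗ b) :
    (cls f g h hf hg).comp (Ext.mk₀ (ModuleCat.ofHom a)) (add_zero 1) =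
      (Ext.mk₀ (ModuleCat.ofHom c)).comp (cls f' g' h' hf' hg') (zero_add 1) := by
  have := ShortComplex.ShortExact.extClass_naturality (sc_shortExact f g h hf hg)
    (sc_shortExact f' g' h' hf' hg')
    { τ₁ := ModuleCat.ofHom a
      τ₂ := ModuleCat.ofHom b
      τ₃ := ModuleCat.ofHom c
      comm₁₂ := by
        change ModuleCat.ofHom a ≫ ModuleCat.ofHom f' = ModuleCat.ofHom f ≫ ModuleCat.ofHom b
        rw [← ModuleCat.ofHom_comp, ← ModuleCat.ofHom_comp, hab]
      comm₂₃ := by
        change ModuleCat.ofHom b ≫ ModuleCat.ofHom g' = ModuleCat.ofHom g ≫ ModuleCat.ofHom c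
        rw [← ModuleCat.ofHom_comp, ← ModuleCat.ofHom_comp, hbc] }
  exact this

variable {A : Type} [CommRing A] [Algebra A C] [Module A K] [Module A F] [Module A N]
  [IsScalarTower A C K] [IsScalarTower A C F] [IsScalarTower A C N]

lemma resExt_cls (f : K →ₗ[C] F) (g : F →ₗ[C] N) (h : Function.Exact f g)
    (hf : Function.Injective f) (hg : Function.Surjective g) :
    resExt A C (cls f g h hf hg) =
      cls (f.restrictScalars A) (g.restrictScalars A) h hf hg := by
  have h2 : (cls f g h hf hg).mapExactFunctor (ModuleCat.restrictScalars (algebraMap A C)) =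
      ((sc_shortExact f g h hf hg).map_of_exact
        (ModuleCat.restrictScalars (algebraMap A C))).extClass :=
    Ext.mapExactFunctor_extClass (ModuleCat.restrictScalars (algebraMap A C))
      (sc_shortExact f g h hf hg)
  have h1 : ((sc_shortExact f g h hf hg).map_of_exact
        (ModuleCat.restrictScalars (algebraMap A C))).extClass.comp
        (Ext.mk₀ (resHom A C K)) (add_zero 1) =
      (Ext.mk₀ (resHom A C N)).comp
        (cls (f.restrictScalars A) (g.restrictScalars A) h hf hg) (zero_add 1) :=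
    ShortComplex.ShortExact.extClass_naturality
    ((sc_shortExact f g h hf hg).map_of_exact (ModuleCat.restrictScalars (algebraMap A C)))
    (sc_shortExact (f.restrictScalars A) (g.restrictScalars A) h hf hg)
    { τ₁ := resHom A C K
      τ₂ := resHom A C F
      τ₃ := resHom A C N
      comm₁₂ := rfl
      comm₂₃ := rfl }
  have h3 : ((cls f g h hf hg).mapExactFunctor
      (ModuleCat.restrictScalars (algebraMap A C))).comp
        (Ext.mk₀ (resHom A C K)) (add_zero 1) =
      (Ext.mk₀ (resHom A C N)).comp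
        (cls (f.restrictScalars A) (g.restrictScalars A) h hf hg) (zero_add 1) := by
    rw [← h1]
    exact congrArg (fun x => x.comp (Ext.mk₀ (resHom A C K)) (add_zero 1)) h2
  rw [resExt, h3, Ext.mk₀_comp_mk₀_assoc, resInv_hom, Ext.mk₀_id_comp]

end Cls

end Pool.Agent.Helper46.TT
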