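import Mathlib

/-!
Modules over Boolean rings are flat.
-/

namespace Pool.Agent.Helper46.TT

open scoped TensorProduct

lemma exists_idem {A : Type} [CommRing A] (hA : ∀ a : A, a * a = a) (I : Ideal A) (hI : I.FG) :
    ∃ e ∈ I, ∀ x ∈ I, e * x = x := by
  refine Submodule.fg_induction (motive := fun I _ => ∃ e ∈ I, ∀ x ∈ I, e * x = x) ?_ ?_ I hI
  · intro a
    refine ⟨a, Submodule.mem_span_singleton_self a, fun x hx => ?_⟩
    obtain ⟨b, rfl⟩ := Submodule.mem_span_singleton.1 hx
    rw [smul_eq_mul, mul_left_comm, hA]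
  · rintro I₁ I₂ - - ⟨e₁, h₁, h₁'⟩ ⟨e₂, h₂, h₂'⟩
    refine ⟨e₁ + e₂ - e₁ * e₂, ?_, ?_⟩
    · refine Submodule.sub_mem _ (Submodule.add_mem _ (Submodule.mem_sup_left h₁)
        (Submodule.mem_sup_right h₂)) (Submodule.mem_sup_left ?_)
      rw [mul_comm]
      exact I₁.smul_mem e₂ h₁
    · intro x hx
      obtain ⟨y, hy, z, hz, rfl⟩ := Submodule.mem_sup.1 hx
      have hy' := h₁' y hy
      have hz' := h₂' z hz
      have e1 : (e₁ + e₂ - e₁ * e₂) * y = y := by
        linear_combination (1 - e₂) * hy'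
      have e2 : (e₁ + e₂ - e₁ * e₂) * z = z := by
        linear_combination (1 - e₁) * hz'
      rw [mul_add, e1, e2]

theorem flat_of_bool {A : Type} [CommRing A] (hA : ∀ a : A, a * a = a) (M : Type)
    [AddCommGroup M] [Module A M] : Module.Flat A M := by
  rw [Module.Flat.iff_rTensor_injective]
  intro I hI
  obtain ⟨e, he, he'⟩ := exists_idem hA I hI
  let r : A →ₗ[A] I := (LinearMap.mulLeft A e).codRestrict I fun a => by
    rw [LinearMap.mulLeft_apply, mul_comm]
    exact I.smul_mem a he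
  have hr : r ∘ₗ I.subtype = LinearMap.id := by
    ext x
    exact he' x x.2
  have h1 : (r.rTensor M) ∘ₗ (LinearMap.rTensor M I.subtype) = LinearMap.id := by
    rw [← LinearMap.rTensor_comp, hr, LinearMap.rTensor_id]
  intro x y hxy
  have h2 := congrArg (r.rTensor M) hxy
  rwa [← LinearMap.comp_apply, ← LinearMap.comp_apply, h1] at h2

theorem faithfullyFlat_of_bool {A B : Type} [CommRing A] [CommRing B] [Algebra A B]
    (hA : ∀ a : A, a * a = a) (hinj : Function.Injective (algebraMap A B)) :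
    Module.FaithfullyFlat A B := by
  rw [Module.FaithfullyFlat.iff_flat_and_ideal_smul_eq_top]
  refine ⟨flat_of_bool hA B, fun I hI => ?_⟩
  have key : ∀ y ∈ I • (⊤ : Submodule A B), ∃ e ∈ I, e • y = y := by
    intro y hy
    refine Submodule.smul_induction_on hy ?_ ?_
    · intro r hr m _
      exact ⟨r, hr, by rw [smul_smul, hA]⟩
    · rintro x y ⟨e₁, h₁, h₁'⟩ ⟨e₂, h₂, h₂'⟩
      refine ⟨e₁ + e₂ - e₁ * e₂, I.sub_mem (I.add_mem h₁ h₂) (I.mul_mem_right _ h₁), ?_⟩
      have e1 : (e₁ + e₂ - e₁ * e₂) • x = x := by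
        rw [sub_smul, add_smul, mul_comm, mul_smul, h₁', add_sub_cancel_right]
      have e2 : (e₁ + e₂ - e₁ * e₂) • y = y := by
        rw [sub_smul, add_smul, mul_smul, h₂', add_sub_cancel_left]
      rw [smul_add, e1, e2]
  obtain ⟨e, he, he'⟩ := key 1 (by rw [hI]; trivial)
  have h1 : algebraMap A B e = algebraMap A B 1 := by
    rw [map_one, Algebra.algebraMap_eq_smul_one, he']
  rw [Ideal.eq_top_iff_one, ← hinj h1]
  exact he

end Pool.Agent.Helper46.TT
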