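import Pool.Agent.Helper46.TT.Rings

/-!
Cardinalities, and the ring theoretic form of the example.
-/

namespace Pool.Agent.Helper46.TT

open Cardinal CategoryTheory Abelian

lemma card_adjoin {F : Type} [CommRing F] [Algebra (ZMod 2) F] (s : Set F) {κ : Cardinal.{0}}
    (hκ : ℵ₀ ≤ κ) (hs : #s ≤ κ) : #(Algebra.adjoin (ZMod 2) s) ≤ κ := by
  rw [Algebra.adjoin_eq_range]
  refine Cardinal.mk_range_le.trans ?_
  refine (MvPolynomial.cardinalMk_le_max).trans ?_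
  refine max_le (max_le ?_ hs) hκ
  exact (Cardinal.lt_aleph0_of_finite _).le.trans hκ

/-- Index sets. -/
def Om (n : ℕ) : Type := (aleph ((n : Ordinal.{0}) + 1)).out

lemma mk_Om (n : ℕ) : #(Om n) = aleph ((n : Ordinal.{0}) + 1) := Cardinal.mk_out _

lemma mk_Om_le {m n : ℕ} (h : m < n) : #(Om m) ≤ aleph (n : Ordinal.{0}) := by
  rw [mk_Om, aleph_le_aleph]
  exact_mod_cast h

lemma mk_lt_Om (n : ℕ) : aleph (n : Ordinal.{0}) < #(Om n) := by
  rw [mk_Om, aleph_lt_aleph]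
  exact_mod_cast Nat.lt_succ_self n

lemma card_Gd (n : ℕ) : #(Gd Om (· < n)) ≤ aleph (n : Ordinal.{0}) := by
  have hκ : ℵ₀ ≤ aleph (n : Ordinal.{0}) := aleph0_le_aleph _
  have h1 : Gd Om (· < n) ⊆ Set.range (fun p : (Σ m : Fin n, Om m × Om m × Bool) =>
      (dd ⟨p.1, p.2.1⟩ p.2.2.1 p.2.2.2 : FF Om)) := by
    rintro _ ⟨⟨m, i⟩, hm, t, b, rfl⟩
    exact ⟨⟨⟨m, hm⟩, i, t, b⟩, rfl⟩
  refine (Cardinal.mk_le_mk_of_subset h1).trans (Cardinal.mk_range_le.trans ?_)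
  rw [Cardinal.mk_sigma]
  refine (Cardinal.sum_le_sum _ (fun _ => aleph (n : Ordinal.{0})) fun m => ?_).trans ?_
  · have h2 := mk_Om_le m.2
    have h3 : #Bool ≤ aleph (n : Ordinal.{0}) :=
      (Cardinal.lt_aleph0_of_finite _).le.trans hκ
    rw [Cardinal.mk_prod, Cardinal.lift_id, Cardinal.lift_id, Cardinal.mk_prod, Cardinal.lift_id,
      Cardinal.lift_id]
    refine (mul_le_mul' h2 (mul_le_mul' h2 h3)).trans ?_
    rw [Cardinal.mul_eq_self hκ, Cardinal.mul_eq_self hκ]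
  · rw [Cardinal.sum_const']
    refine (mul_le_mul' ((Cardinal.lt_aleph0_of_finite _).le.trans hκ) le_rfl).trans ?_
    rw [Cardinal.mul_eq_self hκ]

lemma card_Ge (n : ℕ) : #(Ge Om (· < n)) ≤ aleph (n : Ordinal.{0}) := by
  have hκ : ℵ₀ ≤ aleph (n : Ordinal.{0}) := aleph0_le_aleph _
  have h1 : Ge Om (· < n) ⊆ Set.range (fun p : (Σ m : Fin n, Om m) =>
      (ee ⟨p.1, p.2⟩ : FF Om)) := by
    rintro _ ⟨⟨m, i⟩, hm, rfl⟩
    exact ⟨⟨⟨m, hm⟩, i⟩, rfl⟩
  refine (Cardinal.mk_le_mk_of_subset h1).trans (Cardinal.mk_range_le.trans ?_)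
  rw [Cardinal.mk_sigma]
  refine (Cardinal.sum_le_sum _ (fun _ => aleph (n : Ordinal.{0})) fun m => mk_Om_le m.2).trans ?_
  rw [Cardinal.sum_const']
  refine (mul_le_mul' ((Cardinal.lt_aleph0_of_finite _).le.trans hκ) le_rfl).trans ?_
  rw [Cardinal.mul_eq_self hκ]

lemma card_An (n : ℕ) : #(An Om n) ≤ aleph (n : Ordinal.{0}) :=
  card_adjoin _ (aleph0_le_aleph _) (card_Gd n)

lemma card_An' (n : ℕ) : #(An' Om n) ≤ aleph (n : Ordinal.{0}) := by
  refine card_adjoin _ (aleph0_le_aleph _) ?_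
  refine (Cardinal.mk_union_le _ _).trans ?_
  exact (add_le_add (card_Gd n) (card_Ge n)).trans
    (Cardinal.add_eq_self (aleph0_le_aleph _)).le

/-- The ring `R`. -/
abbrev R : Type := RR Om

/-- The ring `R'`. -/
abbrev R' : Type := RR' Om

theorem ext_vanish (n : ℕ) (η : Ext (ModuleCat.of R R') (ModuleCat.of R R) n) : η = 0 :=
  van_final (κ := fun n => aleph (n : Ordinal.{0})) (fun _ => aleph0_le_aleph _) card_An card_An'
    mk_lt_Om (n + 1) n (Nat.lt_succ_self n) η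

instance : Module.FaithfullyFlat R R' :=
  faithfullyFlat_of_bool (boolTA _) (Subalgebra.inclusion_injective (AA_le_AA' fun _ h => h))

instance : Nontrivial R :=
  ⟨⟨0, 1, fun h => by
    have h1 := congrFun (congrArg Subtype.val h) (fun _ => (none, true))
    exact absurd h1 (by decide)⟩⟩

end Pool.Agent.Helper46.TT
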