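import Pool.Agent.Helper46.TT.Cardl

/-!
The derived category form of the example.
-/

namespace Pool.Agent.Helper46.TT

open CategoryTheory Abelian Limits CochainComplex HomComplex

section Gen

variable {A B : Type} [CommRing A] [CommRing B] [Algebra A B]

variable (A B) in
/-- Restriction of scalars. -/
noncomputable abbrev res : ModuleCat.{0} B ⥤ ModuleCat.{0} A :=
  ModuleCat.restrictScalars (algebraMap A B)

variable (A B) in
/-- Coextension of scalars. -/
noncomputable abbrev co : ModuleCat.{0} A ⥤ ModuleCat.{0} B :=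
  ModuleCat.coextendScalars (algebraMap A B)

variable (A B) in
/-- Extension of scalars. -/
noncomputable abbrev ext : ModuleCat.{0} A ⥤ ModuleCat.{0} B :=
  ModuleCat.extendScalars (algebraMap A B)

variable {X : ModuleCat.{0} A} (I : InjectiveResolution X)

lemma lift_cocycle {Y : ModuleCat.{0} A} (hE : ∀ n (η : Ext Y X n), η = 0) (n : ℤ)
    (f : Y ⟶ I.cochainComplex.X n) (hf : f ≫ I.cochainComplex.d n (n + 1) = 0) :
    ∃ g : Y ⟶ I.cochainComplex.X (n - 1), g ≫ I.cochainComplex.d (n - 1) n = f := by
  by_cases hn : 0 ≤ n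
  · obtain ⟨k, rfl⟩ := Int.eq_ofNat_of_zero_le hn
    have h1 := hE k (I.extEquivCohomologyClass.symm (.mk (Cocycle.fromSingleMk f (zero_add _)
      (k + 1) (by lia) hf)))
    rw [Equiv.symm_apply_eq, InjectiveResolution.extEquivCohomologyClass_zero,
      CohomologyClass.mk_eq_zero_iff, Cocycle.fromSingleMk_mem_coboundaries_iff _ _ _ _ _
        ((k : ℤ) - 1) (by lia)] at h1
    exact h1
  · have h1 : IsZero (I.cochainComplex.X n) :=
      CochainComplex.isZero_of_isStrictlyGE _ 0 _ (by lia)
    exact ⟨0, h1.eq_of_tgt _ _⟩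

variable (A B) in
/-- The regular module, restricted. -/
noncomputable abbrev Y₀ : ModuleCat.{0} A := (res A B).obj (ModuleCat.of B B)

variable (B) in
/-- The complex of coextended modules. -/
noncomputable abbrev Jc : CochainComplex (ModuleCat.{0} B) ℤ :=
  ((co A B).mapHomologicalComplex (ComplexShape.up ℤ)).obj I.cochainComplex

lemma Jc_acyclic (hE : ∀ n (η : Ext (Y₀ A B) X n), η = 0) : (Jc B I).Acyclic := by
  intro n
  rw [(Jc B I).exactAt_iff' (n - 1) n (n + 1) (by simp) (by simp),
    ShortComplex.moduleCat_exact_iff]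
  intro φ hφ
  let f : Y₀ A B ⟶ I.cochainComplex.X n :=
    ModuleCat.ofHom (X := Y₀ A B) (ModuleCat.CoextendScalars.equiv (algebraMap A B) _ φ)
  have hf : f ≫ I.cochainComplex.d n (n + 1) = 0 := by
    ext b
    have h1 := congrArg (fun (ψ : (co A B).obj (I.cochainComplex.X (n + 1))) =>
      ModuleCat.CoextendScalars.equiv (algebraMap A B) _ ψ b) hφ
    exact h1
  obtain ⟨g, hg⟩ := lift_cocycle I hE n f hf
  refine ⟨(ModuleCat.CoextendScalars.equiv (algebraMap A B) _).symm g.hom, ?_⟩
  apply ModuleCat.CoextendScalars.ext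
  have h2 := congrArg ModuleCat.Hom.hom hg
  exact h2

instance (n : ℤ) : Injective ((Jc B I).X n) :=
  Injective.injective_of_adjoint (ModuleCat.restrictCoextendScalarsAdj (algebraMap A B)) _

instance : (Jc B I).IsStrictlyGE 0 := by
  rw [CochainComplex.isStrictlyGE_iff]
  intro i hi
  exact (co A B).map_isZero (CochainComplex.isZero_of_isStrictlyGE _ 0 _ hi)

instance : (Jc B I).IsKInjective := isKInjective_of_injective _ 0

variable (A B) in
/-- Restriction of complexes. -/
noncomputable abbrev resC (K : CochainComplex (ModuleCat.{0} B) ℤ) :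
    CochainComplex (ModuleCat.{0} A) ℤ :=
  ((res A B).mapHomologicalComplex (ComplexShape.up ℤ)).obj K

variable (B) in
/-- The counit on complexes. -/
noncomputable def counitC (L : CochainComplex (ModuleCat.{0} A) ℤ) :
    resC A B (((co A B).mapHomologicalComplex (ComplexShape.up ℤ)).obj L) ⟶ L where
  f i := (ModuleCat.restrictCoextendScalarsAdj (algebraMap A B)).counit.app (L.X i)
  comm' i j _ :=
    ((ModuleCat.restrictCoextendScalarsAdj (algebraMap A B)).counit.naturality (L.d i j)).symm

/-- The transposed map of complexes. -/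
noncomputable def transC {K : CochainComplex (ModuleCat.{0} B) ℤ}
    {L : CochainComplex (ModuleCat.{0} A) ℤ} (g : resC A B K ⟶ L) :
    K ⟶ ((co A B).mapHomologicalComplex (ComplexShape.up ℤ)).obj L where
  f i := (ModuleCat.restrictCoextendScalarsAdj (algebraMap A B)).homEquiv _ _ (g.f i)
  comm' i j _ := by
    have h1 := (ModuleCat.restrictCoextendScalarsAdj (algebraMap A B)).homEquiv_naturality_right
      (g.f i) (L.d i j)
    have h2 := (ModuleCat.restrictCoextendScalarsAdj (algebraMap A B)).homEquiv_naturality_left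
      (K.d i j) (g.f j)
    have h3 : g.f i ≫ L.d i j = (res A B).map (K.d i j) ≫ g.f j := g.comm i j
    exact h1.symm.trans ((congrArg _ h3).trans h2)

lemma transC_counit {K : CochainComplex (ModuleCat.{0} B) ℤ}
    {L : CochainComplex (ModuleCat.{0} A) ℤ} (g : resC A B K ⟶ L) :
    ((res A B).mapHomologicalComplex (ComplexShape.up ℤ)).map (transC g) ≫ counitC B L = g := by
  ext i : 1
  change (res A B).map ((ModuleCat.restrictCoextendScalarsAdj (algebraMap A B)).homEquiv _ _
    (g.f i)) ≫ (ModuleCat.restrictCoextendScalarsAdj (algebraMap A B)).counit.app (L.X i) = g.f i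
  exact (Adjunction.homEquiv_counit _ _ _ _).symm.trans (Equiv.symm_apply_apply _ _)

lemma null (hE : ∀ n (η : Ext (Y₀ A B) X n), η = 0) {K : CochainComplex (ModuleCat.{0} B) ℤ}
    (g : resC A B K ⟶ I.cochainComplex) : Nonempty (Homotopy g 0) := by
  have h1 : Homotopy (𝟙 (Jc B I)) 0 :=
    IsKInjective.homotopyZero (𝟙 (Jc B I)) (Jc_acyclic I hE)
  have h2 : Homotopy (transC g) 0 :=
    (Homotopy.ofEq (by rw [Category.comp_id])).trans ((h1.compLeft (transC g)).trans
      (Homotopy.ofEq (by rw [comp_zero])))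
  have h3 := ((res A B).mapHomotopy h2).compRight (counitC B I.cochainComplex)
  refine ⟨(Homotopy.ofEq (transC_counit g).symm).trans (h3.trans (Homotopy.ofEq ?_))⟩
  rw [Functor.map_zero, zero_comp]

end Gen

end Pool.Agent.Helper46.TT
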