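import Pool.Agent.Helper46.TT.Derived
import Mathlib.Algebra.Category.ModuleCat.Descent

/-!
Derived functors: adjunction, conservativity, and vanishing of maps into the target module.
-/

namespace Pool.Agent.Helper46.TT

open CategoryTheory Abelian Limits CochainComplex HomComplex ZeroObject

universe w₁ w₂

section Zero


variable {A B : Type} [CommRing A] [CommRing B] [Algebra A B]
  [HasDerivedCategory.{w₁} (ModuleCat.{0} A)] [HasDerivedCategory.{w₂} (ModuleCat.{0} B)]

lemma Q_zero {X : ModuleCat.{0} A} (I : InjectiveResolution X)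
    (hE : ∀ n (η : Ext (Y₀ A B) X n), η = 0) (K : CochainComplex (ModuleCat.{0} B) ℤ)
    (f : DerivedCategory.Q.obj (resC A B K) ⟶ DerivedCategory.Q.obj I.cochainComplex) :
    f = 0 := by
  obtain ⟨φ, hφ⟩ := (IsKInjective.Qh_map_bijective
    ((HomotopyCategory.quotient _ _).obj (resC A B K)) I.cochainComplex).surjective
    ((DerivedCategory.quotientCompQhIso _).hom.app _ ≫ f ≫
      (DerivedCategory.quotientCompQhIso _).inv.app _)
  obtain ⟨g, rfl⟩ := (HomotopyCategory.quotient _ _).map_surjective φ
  obtain ⟨h⟩ := null I hE g
  have h0 : (HomotopyCategory.quotient _ _).map g = 0 := by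
    rw [HomotopyCategory.eq_of_homotopy _ _ h, Functor.map_zero]
  rw [h0, Functor.map_zero] at hφ
  have h1 : f = (DerivedCategory.quotientCompQhIso _).inv.app _ ≫
    ((DerivedCategory.quotientCompQhIso _).hom.app _ ≫ f ≫
      (DerivedCategory.quotientCompQhIso _).inv.app _) ≫
        (DerivedCategory.quotientCompQhIso _).hom.app _ := by simp
  rw [h1, ← hφ, zero_comp, comp_zero]

/-- Nothing restricted from `B` maps nontrivially to `X`. -/
theorem derived_zero {X : ModuleCat.{0} A}
    (hE : ∀ n (η : Ext (Y₀ A B) X n), η = 0) (Y : DerivedCategory (ModuleCat.{0} B))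
    (f : (res A B).mapDerivedCategory.obj Y ⟶ (DerivedCategory.singleFunctor _ 0).obj X) :
    f = 0 := by
  let I : InjectiveResolution X := injectiveResolution X
  have hI : QuasiIso I.ι' := inferInstance
  have hI' : IsIso ((DerivedCategory.Q (C := ModuleCat.{0} A)).map I.ι') :=
    (DerivedCategory.isIso_Q_map_iff_quasiIso (C := ModuleCat.{0} A) I.ι').2 hI
  let K := DerivedCategory.Q.objPreimage Y
  let e : DerivedCategory.Q.obj K ≅ Y := DerivedCategory.Q.objObjPreimageIso Y
  let e1 : DerivedCategory.Q.obj (resC A B K) ≅ (res A B).mapDerivedCategory.obj Y :=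
    ((res A B).mapDerivedCategoryFactors.app K).symm ≪≫ (res A B).mapDerivedCategory.mapIso e
  let e2 : (DerivedCategory.singleFunctor _ 0).obj X ≅ DerivedCategory.Q.obj I.cochainComplex :=
    @asIso _ _ _ _ ((DerivedCategory.Q (C := ModuleCat.{0} A)).map I.ι') hI'
  have h1 := Q_zero I hE K (e1.hom ≫ f ≫ e2.hom)
  rw [← cancel_epi e1.hom, ← cancel_mono e2.hom, Category.assoc, h1, comp_zero, zero_comp]

end Zero


section Adj

variable {C D : Type*} [Category* C] [Category* D] [Preadditive C] [Preadditive D]
  {F : C ⥤ D} {G : D ⥤ C} [F.Additive] [G.Additive] {ι : Type*} (c : ComplexShape ι)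

/-- The induced adjunction on complexes. -/
noncomputable def adjC (adj : F ⊣ G) :
    F.mapHomologicalComplex c ⊣ G.mapHomologicalComplex c :=
  Adjunction.mkOfUnitCounit
    { unit :=
        { app := fun K =>
            { f := fun i => adj.unit.app (K.X i)
              comm' := fun i j _ => (adj.unit.naturality (K.d i j)).symm }
          naturality := fun K L f => by
            ext i
            exact adj.unit.naturality (f.f i) }
      counit :=
        { app := fun K =>
            { f := fun i => adj.counit.app (K.X i)
              comm' := fun i j _ => (adj.counit.naturality (K.d i j)).symm }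
          naturality := fun K L f => by
            ext i
            exact adj.counit.naturality (f.f i) }
      left_triangle := by
        ext K i
        refine (congrArg _ (Category.id_comp _)).trans ?_
        exact adj.left_triangle_components (K.X i)
      right_triangle := by
        ext K i
        refine (congrArg _ (Category.id_comp _)).trans ?_
        exact adj.right_triangle_components (K.X i) }

end Adj

section Adj2

variable {C D : Type*} [Category* C] [Category* D] [Abelian C] [Abelian D]
  {F : C ⥤ D} {G : D ⥤ C} [F.Additive] [G.Additive]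
  [PreservesFiniteLimits F] [PreservesFiniteColimits F]
  [PreservesFiniteLimits G] [PreservesFiniteColimits G]
  [HasDerivedCategory.{w₁} C] [HasDerivedCategory.{w₂} D]

/-- The induced adjunction on derived categories. -/
noncomputable def adjD (adj : F ⊣ G) : F.mapDerivedCategory ⊣ G.mapDerivedCategory :=
  letI : CatCommSq (F.mapHomologicalComplex (ComplexShape.up ℤ)) DerivedCategory.Q
    DerivedCategory.Q F.mapDerivedCategory := ⟨F.mapDerivedCategoryFactors.symm⟩
  letI : CatCommSq (G.mapHomologicalComplex (ComplexShape.up ℤ)) DerivedCategory.Q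
    DerivedCategory.Q G.mapDerivedCategory := ⟨G.mapDerivedCategoryFactors.symm⟩
  (adjC (ComplexShape.up ℤ) adj).localization DerivedCategory.Q
    (HomologicalComplex.quasiIso C (ComplexShape.up ℤ)) DerivedCategory.Q
    (HomologicalComplex.quasiIso D (ComplexShape.up ℤ)) F.mapDerivedCategory G.mapDerivedCategory

omit [HasDerivedCategory.{w₂} D] [Abelian D] in
lemma acyclic_of_isZero {K : CochainComplex C ℤ} (h : IsZero (DerivedCategory.Q.obj K)) :
    K.Acyclic := by
  intro n
  rw [HomologicalComplex.exactAt_iff_isZero_homology]
  exact (Functor.map_isZero (DerivedCategory.homologyFunctor C n) h).of_iso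
    ((DerivedCategory.homologyFunctorFactors C n).symm.app K)

omit [HasDerivedCategory.{w₂} D] [Abelian D] in
lemma isZero_of_acyclic {K : CochainComplex C ℤ} (h : K.Acyclic) :
    IsZero (DerivedCategory.Q.obj K) := by
  have : QuasiIso (0 : K ⟶ 0) := by
    rw [quasiIso_iff]
    intro n
    rw [quasiIsoAt_iff_isIso_homologyMap]
    have h1 := (HomologicalComplex.exactAt_iff_isZero_homology _ _).1 (h n)
    have h2 : IsZero ((0 : CochainComplex C ℤ).homology n) :=
      Functor.map_isZero (HomologicalComplex.homologyFunctor C (ComplexShape.up ℤ) n)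
        (isZero_zero _)
    exact ⟨0, h1.eq_of_src _ _, h2.eq_of_src _ _⟩
  have h3 : IsIso (DerivedCategory.Q.map (0 : K ⟶ 0)) := inferInstance
  exact (Functor.map_isZero DerivedCategory.Q (isZero_zero _)).of_iso
    (asIso (DerivedCategory.Q.map (0 : K ⟶ 0)))

omit [PreservesFiniteLimits F] [PreservesFiniteColimits F] [F.Additive]
  [HasDerivedCategory.{w₁} C] [HasDerivedCategory.{w₂} D] in
variable (F) in
lemma isZero_of_reflects [F.PreservesZeroMorphisms] [F.ReflectsIsomorphisms] {X : C}
    (h : IsZero (F.obj X)) : IsZero X := by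
  have h1 : IsIso (F.map (0 : X ⟶ 0)) := by
    rw [F.map_zero]
    exact ⟨0, h.eq_of_src _ _, (Functor.map_isZero F (isZero_zero C)).eq_of_src _ _⟩
  have h2 : IsIso (0 : X ⟶ 0) := isIso_of_reflects_iso _ F
  exact (isZero_zero C).of_iso (asIso (0 : X ⟶ 0))

/-- An exact functor which reflects isomorphisms induces a conservative functor. -/
lemma conserv [F.ReflectsIsomorphisms] : F.mapDerivedCategory.ReflectsIsomorphisms where
  reflects {X Y} f hf := by
    obtain ⟨Z, g, h, hT⟩ := Pretriangulated.distinguished_cocone_triangle f
    have h1 : IsIso (F.mapDerivedCategory.mapTriangle.obj (Pretriangulated.Triangle.mk f g h)).mor₁ :=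
      hf
    have h2 := Pretriangulated.Triangle.isZero₃_of_isIso₁ _
      (F.mapDerivedCategory.map_distinguished _ hT) h1
    refine (Pretriangulated.Triangle.isZero₃_iff_isIso₁ _ hT).1 ?_
    change IsZero Z
    have h3 : IsZero (F.mapDerivedCategory.obj Z) := h2
    let K := DerivedCategory.Q.objPreimage Z
    let e : DerivedCategory.Q.obj K ≅ Z := DerivedCategory.Q.objObjPreimageIso Z
    have h4 : IsZero (DerivedCategory.Q.obj ((F.mapHomologicalComplex (ComplexShape.up ℤ)).obj K)) :=
      h3.of_iso ((F.mapDerivedCategoryFactors.app K).symm ≪≫ F.mapDerivedCategory.mapIso e)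
    have h5 : IsZero (DerivedCategory.Q.obj K) := by
      apply isZero_of_acyclic
      intro n
      have h6 : ((K.sc n).map F).Exact := acyclic_of_isZero h4 n
      refine ((K.sc n).leftHomologyData.exact_iff).2 (isZero_of_reflects F ?_)
      rw [((K.sc n).leftHomologyData.map F).exact_iff, ShortComplex.LeftHomologyData.map_H] at h6
      exact h6
    exact h5.of_iso e.symm

end Adj2

section

variable {A B : Type} [CommRing A] [CommRing B] [Algebra A B]

variable (A B) in
/-- Two forms of `B` as an `A`-module. -/
noncomputable def isoY : Y₀ A B ≅ ModuleCat.of A B where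
  hom := ModuleCat.ofHom (X := Y₀ A B) (Y := B)
    { toFun := fun (b : B) => b
      map_add' := fun _ _ => rfl
      map_smul' := fun a (b : B) => (Algebra.smul_def a b).symm }
  inv := ModuleCat.ofHom (Y := Y₀ A B) (X := B)
    { toFun := fun (b : B) => b
      map_add' := fun _ _ => rfl
      map_smul' := fun a (b : B) => (Algebra.smul_def a b) }

lemma ext_zero {X : ModuleCat.{0} A} (hE : ∀ n (η : Ext (ModuleCat.of A B) X n), η = 0) (n : ℕ)
    (η : Ext (Y₀ A B) X n) : η = 0 := by
  have h1 := hE n ((Ext.mk₀ (isoY A B).inv).comp η (zero_add n))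
  have h2 : (Ext.mk₀ (isoY A B).hom).comp ((Ext.mk₀ (isoY A B).inv).comp η (zero_add n))
      (zero_add n) = η := by
    rw [← Ext.comp_assoc_of_second_deg_zero, Ext.mk₀_comp_mk₀, Iso.hom_inv_id, Ext.mk₀_id_comp]
  rw [← h2, h1, Ext.comp_zero]

instance [Module.FaithfullyFlat A B] : PreservesFiniteLimits (ext A B) :=
  ModuleCat.preservesFiniteLimits_extendScalars_of_flat (RingHom.flat_algebraMap_iff.2 inferInstance)

instance [Module.FaithfullyFlat A B] : (ext A B).ReflectsIsomorphisms :=
  ModuleCat.reflectsIsomorphisms_extendScalars_of_faithfullyFlat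
    (RingHom.faithfullyFlat_algebraMap_iff.2 inferInstance)

instance : (ext A B).Additive :=
  (ModuleCat.extendRestrictScalarsAdj (algebraMap A B)).left_adjoint_additive
example : (res A B).Additive := inferInstance
example : PreservesFiniteLimits (res A B) := inferInstance
example : PreservesFiniteColimits (res A B) := inferInstance
example : PreservesFiniteColimits (ext A B) := inferInstance

end

end Pool.Agent.Helper46.TT
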