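import Pool.Agent.Helper46.TT.ExtRes

/-!
Detecting Ext classes.
-/

namespace Pool.Agent.Helper46.TT

open CategoryTheory Abelian
open scoped TensorProduct

section Functor

/-- The module `J →₀ C ⊗[A] M`. -/
def T (A C J M : Type) [CommRing A] [CommRing C] [Algebra A C] [AddCommGroup M] [Module A M] :
    Type :=
  J →₀ C ⊗[A] M

variable (A C J : Type) [CommRing A] [CommRing C] [Algebra A C]

section inst

variable (M : Type) [AddCommGroup M] [Module A M]

noncomputable instance : AddCommGroup (T A C J M) := inferInstanceAs (AddCommGroup (J →₀ C ⊗[A] M))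

noncomputable instance : Module C (T A C J M) := inferInstanceAs (Module C (J →₀ C ⊗[A] M))

noncomputable instance : Module A (T A C J M) := inferInstanceAs (Module A (J →₀ C ⊗[A] M))

instance : IsScalarTower A C (T A C J M) :=
  inferInstanceAs (IsScalarTower A C (J →₀ C ⊗[A] M))

instance [Module.Free A M] : Module.Free C (T A C J M) :=
  inferInstanceAs (Module.Free C (J →₀ C ⊗[A] M))

end inst

variable {A} {J}

/-- The functor `M ↦ J →₀ C ⊗[A] M` on maps. -/
noncomputable def tmap {M N : Type} [AddCommGroup M] [Module A M] [AddCommGroup N] [Module A N]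
    (f : M →ₗ[A] N) : T A C J M →ₗ[C] T A C J N :=
  (Finsupp.mapRange.linearMap (f.baseChange C) : (J →₀ C ⊗[A] M) →ₗ[C] (J →₀ C ⊗[A] N))

/-- The components. -/
noncomputable def iota (M : Type) [AddCommGroup M] [Module A M] (x : J) :
    M →ₗ[A] T A C J M :=
  ((Finsupp.lsingle x : C ⊗[A] M →ₗ[A] (J →₀ C ⊗[A] M)) ∘ₗ (TensorProduct.mk A C M 1) :
    M →ₗ[A] (J →₀ C ⊗[A] M))

variable {M N K : Type} [AddCommGroup M] [Module A M] [AddCommGroup N] [Module A N]
  [AddCommGroup K] [Module A K]

lemma tmap_iota (f : M →ₗ[A] N) (x : J) :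
    (tmap C (J := J) f).restrictScalars A ∘ₗ iota C M x = iota C N x ∘ₗ f := by
  ext m
  change Finsupp.mapRange.linearMap (f.baseChange C) (Finsupp.single x (1 ⊗ₜ m)) =
    Finsupp.single x (1 ⊗ₜ[A] f m)
  simp

lemma hom_ext_iota {X : Type} [AddCommGroup X] [Module A X] [Module C X] [IsScalarTower A C X]
    {h h' : T A C J M →ₗ[C] X}
    (hh : ∀ x, h.restrictScalars A ∘ₗ iota C M x =
      h'.restrictScalars A ∘ₗ iota C M x) : h = h' := by
  have key : (h : (J →₀ C ⊗[A] M) →ₗ[C] X) = h' := by
    refine Finsupp.lhom_ext' fun x => ?_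
    refine TensorProduct.AlgebraTensorModule.ext fun c m => ?_
    have h1 := LinearMap.congr_fun (hh x) m
    have e : (c ⊗ₜ[A] m : C ⊗[A] M) = c • (1 ⊗ₜ[A] m) := by
      rw [TensorProduct.smul_tmul', smul_eq_mul, mul_one]
    have e3 : (Finsupp.single x (c ⊗ₜ[A] m) : J →₀ C ⊗[A] M) =
        c • Finsupp.single x (1 ⊗ₜ[A] m) := by
      rw [Finsupp.smul_single, ← e]
    exact ((congrArg h e3).trans (h.map_smul c _)).trans ((congrArg (c • ·) h1).trans
      ((congrArg h' e3).trans (h'.map_smul c _)).symm)
  exact key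

lemma exists_hom_iota {X : Type} [AddCommGroup X] [Module A X] [Module C X] [IsScalarTower A C X]
    (η : J → (M →ₗ[A] X)) : ∃ h : T A C J M →ₗ[C] X,
      ∀ x, h.restrictScalars A ∘ₗ iota C M x = η x := by
  refine ⟨(Finsupp.lsum C fun x => TensorProduct.AlgebraTensorModule.lift
    ((LinearMap.lsmul C (M →ₗ[A] X)).flip (η x) : C →ₗ[C] (M →ₗ[A] X)) :
      (J →₀ C ⊗[A] M) →ₗ[C] X), fun x => ?_⟩
  ext m
  change (Finsupp.lsum C fun x => TensorProduct.AlgebraTensorModule.lift
    ((LinearMap.lsmul C (M →ₗ[A] X)).flip (η x) : C →ₗ[C] (M →ₗ[A] X)))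
      (Finsupp.single x (1 ⊗ₜ[A] m)) = η x m
  simp

lemma tmap_surjective {g : M →ₗ[A] N} (hg : Function.Surjective g) :
    Function.Surjective (tmap C (J := J) g) := by
  classical
  have h1 : Function.Surjective (g.baseChange C) := LinearMap.lTensor_surjective C hg
  intro x
  change J →₀ C ⊗[A] N at x
  obtain ⟨s, hs⟩ := h1.hasRightInverse
  refine ⟨(Finsupp.onFinset x.support (fun j => if x j = 0 then 0 else s (x j)) ?_ :
    J →₀ C ⊗[A] M), ?_⟩
  · intro j hj
    rw [Finsupp.mem_support_iff]
    intro h
    simp [h] at hj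
  · change Finsupp.mapRange.linearMap (g.baseChange C) _ = x
    ext j
    simp only [Finsupp.mapRange.linearMap_apply, Finsupp.mapRange_apply,
      Finsupp.onFinset_apply]
    by_cases h : x j = 0
    · simp [h]
    · simp [h, hs (x j)]

lemma tmap_injective [Module.Flat A C] {g : M →ₗ[A] N} (hg : Function.Injective g) :
    Function.Injective (tmap C (J := J) g) := by
  have h1 : Function.Injective (g.baseChange C) :=
    Module.Flat.lTensor_preserves_injective_linearMap g hg
  exact Finsupp.mapRange_injective _ (map_zero _) h1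

lemma tmap_exact [Module.Flat A C] {f : K →ₗ[A] M} {g : M →ₗ[A] N} (h : Function.Exact f g)
    (hf : Function.Injective f) (hg : Function.Surjective g) :
    Function.Exact (tmap C (J := J) f) (tmap C (J := J) g) := by
  have h1 : Function.Exact (f.baseChange C) (g.baseChange C) := lTensor_exact C h hg
  have h2 : Function.Injective (f.baseChange C) :=
    Module.Flat.lTensor_preserves_injective_linearMap f hf
  intro x
  change J →₀ C ⊗[A] M at x
  constructor
  · intro hx
    have h3 : ∀ j, ∃ y, f.baseChange C y = x j := by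
      intro j
      have h4 := DFunLike.congr_fun (F := J →₀ C ⊗[A] N) hx j
      exact (h1 (x j)).1 h4
    choose y hy using h3
    refine ⟨(Finsupp.onFinset x.support y ?_ : J →₀ C ⊗[A] K), ?_⟩
    · intro j hj
      rw [Finsupp.mem_support_iff]
      intro h
      apply hj
      apply h2
      rw [hy, h, map_zero]
    · change Finsupp.mapRange.linearMap (f.baseChange C) _ = x
      ext j
      exact hy j
  · rintro ⟨y, rfl⟩
    change J →₀ C ⊗[A] K at y
    refine Finsupp.ext (M := C ⊗[A] N) fun j => ?_
    exact (h1 _).2 ⟨y j, rfl⟩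

end Functor

/-- A free presentation. -/
structure Pres (A : Type) [CommRing A] (M : Type) [AddCommGroup M] [Module A M] where
  K : Type
  [iK : AddCommGroup K]
  [mK : Module A K]
  P : Type
  [iP : AddCommGroup P]
  [mP : Module A P]
  f : K →ₗ[A] P
  g : P →ₗ[A] M
  free : Module.Free A P
  inj : Function.Injective f
  exact : Function.Exact f g
  surj : Function.Surjective g

attribute [instance] Pres.iK Pres.mK Pres.iP Pres.mP Pres.free

/-- The standard free presentation. -/
noncomputable def stdPres (A : Type) [CommRing A] (M : Type) [AddCommGroup M] [Module A M] :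
    Pres A M where
  K := LinearMap.ker (Finsupp.linearCombination A (id : M → M))
  P := M →₀ A
  f := (LinearMap.ker (Finsupp.linearCombination A (id : M → M))).subtype
  g := Finsupp.linearCombination A (id : M → M)
  free := inferInstance
  inj := Subtype.val_injective
  exact := LinearMap.exact_subtype_ker_map _
  surj := fun m => ⟨Finsupp.single m 1, by simp⟩

section Detect

variable {A C : Type} [CommRing A] [CommRing C] [Algebra A C] {J : Type} [Module.Flat A C]
  {X : Type} [AddCommGroup X] [Module A X] [Module C X] [IsScalarTower A C X]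

theorem detect (j : ℕ) : ∀ (M : Type) [AddCommGroup M] [Module A M]
    (ξ : Ext (ModuleCat.of C (T A C J M)) (ModuleCat.of C X) j),
    (∀ x : J, (Ext.mk₀ (ModuleCat.ofHom (iota C M x))).comp (resExt A C ξ)
      (zero_add j) = 0) → ξ = 0 := by
  induction j with
  | zero =>
    intro M _ _ ξ hξ
    obtain ⟨h, rfl⟩ := mk₀_ofHom_bij.2 ξ
    have h0 : h = 0 := by
      apply hom_ext_iota (A := A)
      intro x
      have h1 := hξ x
      simp only at h1
      rw [resExt_mk₀, mk₀_ofHom_comp] at h1
      exact mk₀_ofHom_bij.1 (h1.trans (Ext.mk₀_zero _ _).symm)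
    rw [h0]
    exact Ext.mk₀_zero _ _
  | succ j ih =>
    intro M _ _ ξ hξ
    -- a free presentation
    obtain ⟨K, P, f, g, free, hf, hfg, hg⟩ := stdPres A M
    have tf : Function.Injective (tmap C (J := J) f) := tmap_injective C hf
    have tg : Function.Surjective (tmap C (J := J) g) := tmap_surjective C hg
    have tfg : Function.Exact (tmap C (J := J) f) (tmap C (J := J) g) := tmap_exact C hfg hf hg
    have hproj : Projective (ModuleCat.of C (T A C J P)) := inferInstance
    have hprojA : Projective (ModuleCat.of A P) := inferInstance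
    obtain ⟨ξ', rfl⟩ := les₃ (tmap C f) (tmap C g) tfg tf tg (ModuleCat.of C X) ξ
      (Ext.eq_zero_of_projective (P := ModuleCat.of C (T A C J P)) _)
    have key : ∀ x : J, ∃ η : Ext (ModuleCat.of A P) (ModuleCat.of A X) j,
        (Ext.mk₀ (ModuleCat.ofHom f)).comp η (zero_add j) =
        (Ext.mk₀ (ModuleCat.ofHom (iota C K x))).comp (resExt A C ξ')
          (zero_add j) := by
      intro x
      apply les₁ f g hfg hf hg
      have h1 := hξ x
      have nat := cls_natural f g hfg hf hg ((tmap C f).restrictScalars A)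
        ((tmap C g).restrictScalars A) tfg tf tg (iota C K x)
        (iota C P x) (iota C M x) (tmap_iota C f x).symm (tmap_iota C g x).symm
      rw [resExt_comp, resExt_cls, ← Ext.comp_assoc (a₁₂ := 1) _ _ _ (by lia) (by lia) (by lia),
        ← nat, Ext.comp_assoc (a₁₂ := 1) (a₂₃ := j) _ _ _ (by lia) (by lia) (by lia)] at h1
      exact h1
    cases j with
    | zero =>
      have key' : ∀ x : J, ∃ η : P →ₗ[A] X,
          (Ext.mk₀ (ModuleCat.ofHom f)).comp (Ext.mk₀ (ModuleCat.ofHom η)) (zero_add 0) =
          (Ext.mk₀ (ModuleCat.ofHom (iota C K x))).comp (resExt A C ξ')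
            (zero_add 0) := by
        intro x
        obtain ⟨η, hη⟩ := key x
        obtain ⟨h, rfl⟩ := mk₀_ofHom_bij.2 η
        exact ⟨h, hη⟩
      choose η hη using key'
      obtain ⟨h, hh⟩ := exists_hom_iota C η
      obtain ⟨k, rfl⟩ := mk₀_ofHom_bij.2 ξ'
      have e : k = h ∘ₗ tmap C f := by
        apply hom_ext_iota (A := A)
        intro x
        have h1 := hη x
        simp only at h1
        rw [resExt_mk₀, mk₀_ofHom_comp, mk₀_ofHom_comp] at h1
        have h2 := mk₀_ofHom_bij.1 h1
        rw [← h2, ← hh x, LinearMap.comp_assoc, ← tmap_iota C f x]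
        rfl
      rw [e]
      simp only
      rw [← mk₀_ofHom_comp]
      exact cls_comp_f _ _ _ _ _ _ _
    | succ j =>
      have e : ξ' = 0 := by
        apply ih
        intro x
        obtain ⟨η, hη⟩ := key x
        rw [← hη, Ext.eq_zero_of_projective η, Ext.comp_zero]
      rw [e, Ext.comp_zero]

end Detect

end Pool.Agent.Helper46.TT
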