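import Pool.Agent.Helper46.TT.Detect

/-!
Propagation of the vanishing of Ext.
-/

namespace Pool.Agent.Helper46.TT

open CategoryTheory Abelian
open scoped TensorProduct

variable {A C A' : Type} [CommRing A] [CommRing C] [CommRing A'] [Algebra A C] [Algebra A A']

/-- Multiplication with a fixed element. -/
noncomputable def mulx (N : Type) [AddCommGroup N] [Module (C ⊗[A] A') N] [Module C N]
    [IsScalarTower C (C ⊗[A] A') N] [Module A N] [IsScalarTower A C N] (x : N) : A' →ₗ[A] N where
  toFun a' := (1 ⊗ₜ[A] a' : C ⊗[A] A') • x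
  map_add' a b := by rw [TensorProduct.tmul_add, add_smul]
  map_smul' a a' := by
    rw [RingHom.id_apply, ← algebraMap_smul C a ((1 ⊗ₜ[A] a' : C ⊗[A] A') • x), ← smul_assoc,
      TensorProduct.tmul_smul, algebraMap_smul]

variable {X : Type} [AddCommGroup X] [Module A X] [Module C X] [IsScalarTower A C X]
  [Module.Flat A C]

theorem lemmaL_aux (n : ℕ)
    (hV : ∀ j < n, ∀ η : Ext (ModuleCat.of A A') (ModuleCat.of A X) j, η = 0) (j : ℕ) :
    j ≤ n → ∀ (N : Type) [AddCommGroup N] [Module (C ⊗[A] A') N] [Module C N]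
      [IsScalarTower C (C ⊗[A] A') N] [Module A N] [IsScalarTower A C N]
      (ξ : Ext (ModuleCat.of C N) (ModuleCat.of C X) j),
      (∀ x : N, (Ext.mk₀ (ModuleCat.ofHom (mulx (C := C) (A' := A') N x))).comp (resExt A C ξ)
        (zero_add j) = 0) → ξ = 0 := by
  induction j with
  | zero =>
    intro _ N _ _ _ _ _ _ ξ hξ
    obtain ⟨h, rfl⟩ := mk₀_ofHom_bij.2 ξ
    have h0 : h = 0 := by
      ext x
      have h1 := hξ x
      simp only at h1
      rw [resExt_mk₀, mk₀_ofHom_comp] at h1
      have h2 := mk₀_ofHom_bij.1 (h1.trans (Ext.mk₀_zero _ _).symm)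
      have h3 := LinearMap.congr_fun h2 1
      change h ((1 ⊗ₜ[A] 1 : C ⊗[A] A') • x) = 0 at h3
      rw [← Algebra.TensorProduct.one_def, one_smul] at h3
      exact h3
    rw [h0]
    exact Ext.mk₀_zero _ _
  | succ j ih =>
    intro hj N _ _ _ _ _ _ ξ hξ
    let p : (N →₀ C ⊗[A] A') →ₗ[C ⊗[A] A'] N := Finsupp.linearCombination (C ⊗[A] A') id
    have hp : Function.Surjective p := fun x => ⟨Finsupp.single x 1, by simp [p]⟩
    let pC : T A C N A' →ₗ[C] N := p.restrictScalars C
    let K : Submodule (C ⊗[A] A') (N →₀ C ⊗[A] A') := LinearMap.ker p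
    let fC : K →ₗ[C] T A C N A' := K.subtype.restrictScalars C
    have hf : Function.Injective fC := Subtype.val_injective
    have hfp : Function.Exact fC pC := fun x => ⟨fun hx => ⟨⟨x, hx⟩, rfl⟩, by
      rintro ⟨y, rfl⟩
      exact y.2⟩
    have e1 : ∀ x : N, pC.restrictScalars A ∘ₗ iota C A' x = mulx (C := C) (A' := A') N x := by
      intro x
      ext a'
      change p (Finsupp.single x (1 ⊗ₜ[A] a')) = (1 ⊗ₜ[A] a' : C ⊗[A] A') • x
      simp [p]
    have e2 : (Ext.mk₀ (ModuleCat.ofHom pC)).comp ξ (zero_add _) = 0 := by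
      apply detect (A := A)
      intro x
      rw [resExt_comp, resExt_mk₀, mk₀_ofHom_comp_assoc, e1]
      exact hξ x
    obtain ⟨ξ', rfl⟩ := les₃ (K := K) (F := T A C N A') (N := N) fC pC hfp hf hp (ModuleCat.of C X) ξ e2
    have e3 : ξ' = 0 := by
      apply ih (by omega)
      intro x
      exact hV j (by omega) _
    rw [e3, Ext.comp_zero]

end Pool.Agent.Helper46.TT
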