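import Pool.Agent.Helper46.TT.Step
import Pool.Agent.Helper46.TT.BoolFlat

/-!
The rings of the counterexample.
-/

namespace Pool.Agent.Helper46.TT

open Cardinal CategoryTheory Abelian

section

variable (Om : ℕ → Type)

/-- The points of the space `Z'`. -/
abbrev Pt : Type := ∀ i : (Σ n, Om n), Option (Om i.1) × Bool

/-- All functions on `Z'`. -/
abbrev FF : Type := Pt Om → ZMod 2

variable {Om}

open scoped Classical in
/-- The indicator function of a coordinate having a given value. -/
noncomputable def dd (i : Σ n, Om n) (t : Om i.1) (b : Bool) : FF Om :=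
  fun z => if z i = (some t, b) then 1 else 0

open scoped Classical in
/-- The indicator function of a branch. -/
noncomputable def ee (i : Σ n, Om n) : FF Om := fun z => if (z i).2 = true then 1 else 0

/-- The value prescribed by `s`. -/
def val {α : Type} (s : Option (α × Bool)) : Option α × Bool :=
  s.elim (none, true) fun p => (some p.1, p.2)

open scoped Classical in
/-- Substituting a value for a coordinate. -/
noncomputable def EE (i : Σ n, Om n) (s : Option (Om i.1 × Bool)) : FF Om →ₐ[ZMod 2] FF Om where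
  toFun f z := f (Function.update z i (val s))
  map_one' := rfl
  map_mul' _ _ := rfl
  map_zero' := rfl
  map_add' _ _ := rfl
  commutes' _ := rfl

lemma EE_dd_ne {i j : Σ n, Om n} (h : j ≠ i) (s : Option (Om i.1 × Bool)) (t : Om j.1) (b : Bool) :
    EE i s (dd j t b) = dd j t b := by
  classical
  funext z
  change dd j t b (Function.update z i (val s)) = dd j t b z
  simp only [dd]
  rw [Function.update_of_ne h]

open scoped Classical in
lemma EE_dd_same (i : Σ n, Om n) (s : Option (Om i.1 × Bool)) (t : Om i.1) (b : Bool) :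
    EE i s (dd i t b) = if val s = (some t, b) then 1 else 0 := by
  funext z
  change dd i t b (Function.update z i (val s)) = _
  simp only [dd]
  rw [Function.update_self]
  split_ifs <;> rfl

lemma dd_mul_ee_true (i : Σ n, Om n) (t : Om i.1) : dd i t true * ee i = dd i t true := by
  funext z
  by_cases h : z i = (some t, true)
  · simp [dd, ee, h]
  · simp [dd, h]

lemma dd_mul_ee_false (i : Σ n, Om n) (t : Om i.1) : dd i t false * ee i = 0 := by
  funext z
  by_cases h : z i = (some t, false)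
  · simp [dd, ee, h]
  · simp [dd, h]

variable (Om)

/-- Generators. -/
def Gd (P : ℕ → Prop) : Set (FF Om) := {f | ∃ i : Σ n, Om n, P i.1 ∧ ∃ t b, f = dd i t b}

/-- Generators. -/
def Ge (P : ℕ → Prop) : Set (FF Om) := {f | ∃ i : Σ n, Om n, P i.1 ∧ f = ee i}

/-- The algebra generated by the `dd`. -/
def AA (P : ℕ → Prop) : Subalgebra (ZMod 2) (FF Om) := Algebra.adjoin (ZMod 2) (Gd Om P)

/-- The algebra generated by the `dd` and the `ee`. -/
def AA' (P : ℕ → Prop) : Subalgebra (ZMod 2) (FF Om) :=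
  Algebra.adjoin (ZMod 2) (Gd Om P ∪ Ge Om P)

variable {Om}

lemma AA_mono {P Q : ℕ → Prop} (h : ∀ n, P n → Q n) : AA Om P ≤ AA Om Q :=
  Algebra.adjoin_mono fun _ ⟨i, hi, hf⟩ => ⟨i, h _ hi, hf⟩

lemma AA'_mono {P Q : ℕ → Prop} (h : ∀ n, P n → Q n) : AA' Om P ≤ AA' Om Q :=
  Algebra.adjoin_mono (Set.union_subset_union (fun _ ⟨i, hi, hf⟩ => ⟨i, h _ hi, hf⟩)
    (fun _ ⟨i, hi, hf⟩ => ⟨i, h _ hi, hf⟩))

lemma AA_le_AA' {P Q : ℕ → Prop} (h : ∀ n, P n → Q n) : AA Om P ≤ AA' Om Q :=
  (AA_mono h).trans (Algebra.adjoin_mono Set.subset_union_left)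

lemma dd_mem {P : ℕ → Prop} {i : Σ n, Om n} (hi : P i.1) (t : Om i.1) (b : Bool) :
    dd i t b ∈ AA Om P := Algebra.subset_adjoin ⟨i, hi, t, b, rfl⟩

lemma ee_mem {P : ℕ → Prop} {i : Σ n, Om n} (hi : P i.1) : ee i ∈ AA' Om P :=
  Algebra.subset_adjoin (Or.inr ⟨i, hi, rfl⟩)

lemma EE_mem {P : ℕ → Prop} (i : Σ n, Om n) (s : Option (Om i.1 × Bool)) {f : FF Om}
    (hf : f ∈ AA Om P) : EE i s f ∈ AA Om P := by
  have h1 : AA Om P ≤ (AA Om P).comap (EE i s) := by
    refine Algebra.adjoin_le ?_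
    rintro _ ⟨j, hj, t, b, rfl⟩
    change EE i s (dd j t b) ∈ AA Om P
    by_cases h : j = i
    · subst h
      rw [EE_dd_same]
      split_ifs
      · exact one_mem _
      · exact zero_mem _
    · rw [EE_dd_ne h]
      exact dd_mem hj t b
  exact h1 hf

lemma EE_eq_self {P : ℕ → Prop} {i : Σ n, Om n} (hi : ¬ P i.1) (s : Option (Om i.1 × Bool))
    {f : FF Om} (hf : f ∈ AA Om P) : EE i s f = f := by
  have h1 : AA Om P ≤ AlgHom.equalizer (EE i s) (AlgHom.id (ZMod 2) (FF Om)) := by
    refine Algebra.adjoin_le ?_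
    rintro _ ⟨j, hj, t, b, rfl⟩
    change EE i s (dd j t b) = dd j t b
    refine EE_dd_ne ?_ s t b
    rintro rfl
    exact hi hj
  exact h1 hf

lemma finite2 (n : ℕ) {f : FF Om} (hf : f ∈ AA Om fun _ => True) :
    {i : Om n | ∃ s, EE ⟨n, i⟩ s f ≠ f}.Finite := by
  induction hf using Algebra.adjoin_induction with
  | mem x hx =>
    obtain ⟨j, -, t, b, rfl⟩ := hx
    refine Set.Finite.subset (s := {i : Om n | j = ⟨n, i⟩}) ?_ ?_
    · refine Set.Subsingleton.finite fun i hi i' hi' => ?_
      rw [Set.mem_ofPred_eq] at hi hi'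
      rw [hi] at hi'
      exact eq_of_heq (Sigma.mk.inj hi').2
    · rintro i ⟨s, hs⟩
      by_contra h
      exact hs (EE_dd_ne h s t b)
  | algebraMap r =>
    convert Set.finite_empty
    ext i
    simp only [Set.mem_ofPred_eq, Set.mem_empty_iff_false, iff_false, not_exists, not_not]
    exact fun s => AlgHom.commutes _ r
  | add x y _ _ hx hy =>
    refine (hx.union hy).subset ?_
    rintro i ⟨s, hs⟩
    by_contra h
    simp only [Set.mem_union, Set.mem_ofPred_eq, not_or, not_exists, not_not] at h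
    exact hs (by rw [map_add, h.1 s, h.2 s])
  | mul x y _ _ hx hy =>
    refine (hx.union hy).subset ?_
    rintro i ⟨s, hs⟩
    by_contra h
    simp only [Set.mem_union, Set.mem_ofPred_eq, not_or, not_exists, not_not] at h
    exact hs (by rw [map_mul, h.1 s, h.2 s])

lemma finite3 (i : Σ n, Om n) {f : FF Om} (hf : f ∈ AA Om fun _ => True) :
    {t : Om i.1 | ∃ b, EE i (some (t, b)) f ≠ EE i none f}.Finite := by
  classical
  induction hf using Algebra.adjoin_induction with
  | mem x hx =>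
    obtain ⟨j, -, t', b', rfl⟩ := hx
    by_cases h : j = i
    · subst h
      refine (Set.finite_singleton t').subset ?_
      rintro t ⟨b, hb⟩
      by_contra ht
      apply hb
      rw [EE_dd_same, EE_dd_same, if_neg, if_neg]
      · simp [val]
      · intro h
        simp only [val, Option.elim_some, Prod.mk.injEq, Option.some.injEq] at h
        exact ht h.1
    · convert Set.finite_empty
      ext t
      simp only [Set.mem_ofPred_eq, Set.mem_empty_iff_false, iff_false, not_exists, not_not]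
      intro b
      rw [EE_dd_ne h, EE_dd_ne h]
  | algebraMap r =>
    convert Set.finite_empty
    ext t
    simp only [Set.mem_ofPred_eq, Set.mem_empty_iff_false, iff_false, not_exists, not_not]
    exact fun s => (AlgHom.commutes _ r).trans (AlgHom.commutes _ r).symm
  | add x y _ _ hx hy =>
    refine (hx.union hy).subset ?_
    rintro t ⟨s, hs⟩
    by_contra h
    simp only [Set.mem_union, Set.mem_ofPred_eq, not_or, not_exists, not_not] at h
    exact hs (by rw [map_add, map_add, h.1 s, h.2 s])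
  | mul x y _ _ hx hy =>
    refine (hx.union hy).subset ?_
    rintro t ⟨s, hs⟩
    by_contra h
    simp only [Set.mem_union, Set.mem_ofPred_eq, not_or, not_exists, not_not] at h
    exact hs (by rw [map_mul, map_mul, h.1 s, h.2 s])

lemma bool_ff (f : FF Om) : f * f = f := by
  funext z
  have : ∀ a : ZMod 2, a * a = a := by decide
  exact this _

lemma bool_sub (S : Subalgebra (ZMod 2) (FF Om)) (f : S) : f * f = f :=
  Subtype.ext (bool_ff f.1)

variable (Om)

/-- The ring generated by the `dd`. -/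
def TA (P : ℕ → Prop) : Type := AA Om P

/-- The ring generated by the `dd` and the `ee`. -/
def TA' (P : ℕ → Prop) : Type := AA' Om P

instance (P : ℕ → Prop) : CommRing (TA Om P) := inferInstanceAs (CommRing (AA Om P))

instance (P : ℕ → Prop) : CommRing (TA' Om P) := inferInstanceAs (CommRing (AA' Om P))

variable {Om}

lemma boolTA (P : ℕ → Prop) (a : TA Om P) : a * a = a := bool_sub (AA Om P) a

/-- Inclusion. -/
def incTA {P Q : ℕ → Prop} (h : ∀ n, P n → Q n) : TA Om P →+* TA Om Q :=
  (Subalgebra.inclusion (AA_mono h)).toRingHom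

/-- Inclusion. -/
def incTA' {P Q : ℕ → Prop} (h : ∀ n, P n → Q n) : TA' Om P →+* TA' Om Q :=
  (Subalgebra.inclusion (AA'_mono h)).toRingHom

/-- Inclusion. -/
def incTT {P Q : ℕ → Prop} (h : ∀ n, P n → Q n) : TA Om P →+* TA' Om Q :=
  (Subalgebra.inclusion (AA_le_AA' h)).toRingHom

variable (Om)

/-- The rings `A_n`. -/
abbrev An (n : ℕ) : Type := TA Om (· < n)

/-- The rings `A'_n`. -/
abbrev An' (n : ℕ) : Type := TA' Om (· < n)

/-- The ring `R`. -/
abbrev RR : Type := TA Om (fun _ => True)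

/-- The ring `R'`. -/
abbrev RR' : Type := TA' Om (fun _ => True)

lemma hsucc {n : ℕ} : ∀ m, m < n → m < n + 1 := fun _ hm => Nat.lt_succ_of_lt hm

noncomputable instance (n : ℕ) : Algebra (An Om n) (An Om (n + 1)) := (incTA hsucc).toAlgebra
noncomputable instance (n : ℕ) : Algebra (An Om n) (RR Om) :=
  (incTA fun _ _ => trivial).toAlgebra
noncomputable instance (n : ℕ) : Algebra (An' Om n) (An' Om (n + 1)) := (incTA' hsucc).toAlgebra
noncomputable instance (n : ℕ) : Algebra (An' Om n) (RR' Om) :=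
  (incTA' fun _ _ => trivial).toAlgebra
noncomputable instance (n : ℕ) : Algebra (An Om n) (An' Om n) := (incTT fun _ h => h).toAlgebra
noncomputable instance (n : ℕ) : Algebra (An Om n) (An' Om (n + 1)) := (incTT hsucc).toAlgebra
noncomputable instance (n : ℕ) : Algebra (An Om n) (RR' Om) :=
  (incTT fun _ _ => trivial).toAlgebra
noncomputable instance instRR' : Algebra (RR Om) (RR' Om) := (incTT fun _ h => h).toAlgebra

instance (n : ℕ) : IsScalarTower (An Om n) (An Om (n + 1)) (An' Om (n + 1)) :=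
  IsScalarTower.of_algebraMap_eq fun x =>
    (Subalgebra.inclusion_inclusion (AA_mono hsucc) (AA_le_AA' fun _ h => h) x).symm
instance (n : ℕ) : IsScalarTower (An Om n) (An' Om n) (An' Om (n + 1)) :=
  IsScalarTower.of_algebraMap_eq fun x =>
    (Subalgebra.inclusion_inclusion (AA_le_AA' fun _ h => h) (AA'_mono hsucc) x).symm
instance (n : ℕ) : IsScalarTower (An Om n) (An Om (n + 1)) (RR Om) :=
  IsScalarTower.of_algebraMap_eq fun x =>
    (Subalgebra.inclusion_inclusion (AA_mono hsucc) (AA_mono fun _ _ => trivial) x).symm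
instance (n : ℕ) : IsScalarTower (An Om n) (RR Om) (RR' Om) :=
  IsScalarTower.of_algebraMap_eq fun x =>
    (Subalgebra.inclusion_inclusion (AA_mono fun _ _ => trivial) (AA_le_AA' fun _ h => h) x).symm
instance (n : ℕ) : IsScalarTower (An Om n) (An' Om n) (RR' Om) :=
  IsScalarTower.of_algebraMap_eq fun x =>
    (Subalgebra.inclusion_inclusion (AA_le_AA' fun _ h => h) (AA'_mono fun _ _ => trivial) x).symm
instance (n : ℕ) : Module.Flat (An Om n) (An Om (n + 1)) := flat_of_bool (boolTA _) _
instance (n : ℕ) : Module.Flat (An Om n) (RR Om) := flat_of_bool (boolTA _) _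

variable {Om}

/-- The substitution operators as linear maps. -/
noncomputable def eps (n : ℕ) (i : Om n) (s : Option (Om n × Bool)) :
    RR Om →ₗ[An Om n] RR Om where
  toFun := fun f => ⟨EE ⟨n, i⟩ s f.1, EE_mem _ _ f.2⟩
  map_add' := fun f g => Subtype.ext (map_add (EE ⟨n, i⟩ s) f.1 g.1)
  map_smul' := fun a f => Subtype.ext (by
      change EE ⟨n, i⟩ s (a.1 * f.1) = a.1 * EE ⟨n, i⟩ s f.1
      rw [map_mul, EE_eq_self (P := (· < n)) (i := ⟨n, i⟩) (lt_irrefl n) s a.2])

/-- The operators of the inductive step. -/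
noncomputable def ops (n : ℕ) :
    Ops (An Om n) (An Om (n + 1)) (An' Om (n + 1)) (RR Om) (Om n) (Om n) where
  e := fun i => ⟨ee ⟨n, i⟩, ee_mem (P := (· < n + 1)) (i := ⟨n, i⟩) (Nat.lt_succ_self n)⟩
  δ := fun i t b => ⟨dd ⟨n, i⟩ t b,
      dd_mem (P := (· < n + 1)) (i := ⟨n, i⟩) (Nat.lt_succ_self n) t b⟩
  ε := fun i s => eps n i s
  h1 := fun i t b r => Subtype.ext (by
      classical
      change EE ⟨n, i⟩ (some (t, b)) (dd ⟨n, i⟩ t b * r.1) = EE ⟨n, i⟩ (some (t, b)) r.1
      rw [map_mul, EE_dd_same, if_pos (show val (some (t, b)) = (some t, b) from rfl), one_mul])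
  h2 := fun r => by
      refine (finite2 n r.2).subset ?_
      rintro i ⟨s, hs⟩
      exact ⟨s, fun h => hs (Subtype.ext h)⟩
  h3 := fun r i => by
      refine (finite3 ⟨n, i⟩ r.2).subset ?_
      rintro t ⟨b, hb⟩
      exact ⟨b, fun h => hb (Subtype.ext h)⟩
  h4 := fun i t => Subtype.ext (dd_mul_ee_true ⟨n, i⟩ t)
  h5 := fun i t => Subtype.ext (dd_mul_ee_false ⟨n, i⟩ t)

theorem van {κ : ℕ → Cardinal.{0}} (hκ : ∀ n, ℵ₀ ≤ κ n) (h1 : ∀ n, #(An Om n) ≤ κ n)
    (h2 : ∀ n, #(An' Om n) ≤ κ n) (h3 : ∀ n, κ n < #(Om n)) (n : ℕ) :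
    Van (An Om n) (An' Om n) (RR Om) n := by
  induction n with
  | zero =>
    intro j hj
    omega
  | succ n ih => exact step (ops n) (hκ n) (h1 n) (h2 n) (h3 n) (h3 n) ih

theorem van_final {κ : ℕ → Cardinal.{0}} (hκ : ∀ n, ℵ₀ ≤ κ n) (h1 : ∀ n, #(An Om n) ≤ κ n)
    (h2 : ∀ n, #(An' Om n) ≤ κ n) (h3 : ∀ n, κ n < #(Om n)) (n : ℕ) :
    Van (RR Om) (RR' Om) (RR Om) n := by
  intro j hj ξ
  have hv := van hκ h1 h2 h3 n
  exact lemmaL hv hj.le ξ fun x => hv j hj _

end

end Pool.Agent.Helper46.TT
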