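import Pool.Agent.Helper46.TT.LemmaL

/-!
Smallness of Ext classes.
-/

namespace Pool.Agent.Helper46.TT

open CategoryTheory Abelian Cardinal
open scoped TensorProduct

lemma mk_finsupp_le {α β : Type} [Zero β] {κ : Cardinal} (hκ : ℵ₀ ≤ κ) (hα : #α ≤ κ)
    (hβ : #β ≤ κ) : #(α →₀ β) ≤ κ := by
  have h1 : #(α →₀ β) ≤ #(Finset (α × β)) := Cardinal.mk_le_of_injective
    (Finsupp.graph_injective α β)
  refine h1.trans ?_
  have h2 : #(α × β) ≤ κ := by
    rw [Cardinal.mk_prod, Cardinal.lift_id, Cardinal.lift_id]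
    exact (mul_le_mul' hα hβ).trans (Cardinal.mul_eq_self hκ).le
  rcases finite_or_infinite (α × β) with h | h
  · exact (Cardinal.lt_aleph0_of_finite _).le.trans hκ
  · rw [Cardinal.mk_finset_of_infinite]
    exact h2

theorem small {A : Type} [CommRing A] {X : Type} [AddCommGroup X] [Module A X] {κ : Cardinal.{0}}
    (hκ : ℵ₀ ≤ κ) (hA : #A ≤ κ) (n : ℕ) : ∀ (M : Type) [AddCommGroup M] [Module A M],
    #M ≤ κ → ∀ y : Ext (ModuleCat.of A M) (ModuleCat.of A X) n,
    ∃ V : Set X, #V ≤ κ ∧ ∀ g g' : X →ₗ[A] X, (∀ v ∈ V, g v = g' v) →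
      y.comp (Ext.mk₀ (ModuleCat.ofHom g)) (add_zero n) =
        y.comp (Ext.mk₀ (ModuleCat.ofHom g')) (add_zero n) := by
  induction n with
  | zero =>
    intro M _ _ hM y
    obtain ⟨h, rfl⟩ := mk₀_ofHom_bij.2 y
    refine ⟨Set.range h, Cardinal.mk_range_le.trans hM, fun g g' hg => ?_⟩
    simp only
    rw [mk₀_ofHom_comp, mk₀_ofHom_comp]
    congr 2
    ext m
    exact hg _ ⟨m, rfl⟩
  | succ n ih =>
    intro M _ _ hM y
    let f := (LinearMap.ker (Finsupp.linearCombination A (id : M → M))).subtype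
    let g := Finsupp.linearCombination A (id : M → M)
    have hf : Function.Injective f := Subtype.val_injective
    have hfg : Function.Exact f g := LinearMap.exact_subtype_ker_map _
    have hg : Function.Surjective g := fun m => ⟨Finsupp.single m 1, by simp [g]⟩
    have hP : Projective (ModuleCat.of A (M →₀ A)) := inferInstance
    obtain ⟨y', rfl⟩ := les₃ (K := LinearMap.ker (Finsupp.linearCombination A (id : M → M)))
      (F := M →₀ A) (N := M) f g hfg hf hg (ModuleCat.of A X) y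
      (Ext.eq_zero_of_projective (P := ModuleCat.of A (M →₀ A)) _)
    have hK : #(LinearMap.ker (Finsupp.linearCombination A (id : M → M))) ≤ κ :=
      (Cardinal.mk_le_of_injective Subtype.val_injective).trans (mk_finsupp_le hκ hM hA)
    obtain ⟨V, hV, h⟩ := ih _ hK y'
    refine ⟨V, hV, fun g₁ g₂ hg => ?_⟩
    rw [Ext.comp_assoc (a₁₂ := n + 1) (a₂₃ := n) _ _ _ (by lia) (by lia) (by lia),
      Ext.comp_assoc (a₁₂ := n + 1) (a₂₃ := n) _ _ _ (by lia) (by lia) (by lia), h g₁ g₂ hg]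

end Pool.Agent.Helper46.TT
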