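import Pool.Agent.Helper46.TT.Small

/-!
The inductive step.
-/

namespace Pool.Agent.Helper46.TT

open CategoryTheory Abelian Cardinal
open scoped TensorProduct

section

variable {C : Type} [CommRing C] {X Y : Type} [AddCommGroup X] [Module C X]
  [AddCommGroup Y] [Module C Y]

lemma lsmul_comp (c : C) {n : ℕ} (ξ : Ext (ModuleCat.of C X) (ModuleCat.of C Y) n) :
    (Ext.mk₀ (ModuleCat.ofHom (LinearMap.lsmul C X c))).comp ξ (zero_add n) =
      ξ.comp (Ext.mk₀ (ModuleCat.ofHom (LinearMap.lsmul C Y c))) (add_zero n) := by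
  have h1 : ModuleCat.ofHom (LinearMap.lsmul C X c) = c • 𝟙 (ModuleCat.of C X) := rfl
  have h2 : ModuleCat.ofHom (LinearMap.lsmul C Y c) = c • 𝟙 (ModuleCat.of C Y) := rfl
  rw [h1, h2, Ext.mk₀_smul, Ext.mk₀_smul, Ext.smul_comp, Ext.comp_smul, Ext.mk₀_id_comp,
    Ext.comp_mk₀_id]

end

/-- The vanishing of Ext in degrees `< n`. -/
def Van (A M X : Type) [CommRing A] [AddCommGroup M] [Module A M] [AddCommGroup X] [Module A X]
    (n : ℕ) : Prop :=
  ∀ j < n, ∀ η : Ext (ModuleCat.of A M) (ModuleCat.of A X) j, η = 0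

section

variable {A C A' C' R : Type} [CommRing A] [CommRing C] [CommRing A'] [CommRing C'] [CommRing R]
  [Algebra A C] [Algebra A A'] [Algebra C C'] [Algebra A' C'] [Algebra A C'] [IsScalarTower A C C']
  [IsScalarTower A A' C'] [Module.Flat A C] [Algebra A R] [Algebra C R] [IsScalarTower A C R]

/-- The elements of `Ext^n_A(A', R)` obtained from an element of `Ext^n_C(C', R)`. -/
noncomputable def phi {n : ℕ} (ξ : Ext (ModuleCat.of C C') (ModuleCat.of C R) n) (x : C') :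
    Ext (ModuleCat.of A A') (ModuleCat.of A R) n :=
  (Ext.mk₀ (ModuleCat.ofHom ((LinearMap.mulLeft A x) ∘ₗ
    (IsScalarTower.toAlgHom A A' C').toLinearMap))).comp (resExt A C ξ) (zero_add n)

lemma phi_mul {n : ℕ} (ξ : Ext (ModuleCat.of C C') (ModuleCat.of C R) n) (c : C) (x : C') :
    phi (A := A) (A' := A') ξ (algebraMap C C' c * x) =
      (phi (A := A) (A' := A') ξ x).comp
        (Ext.mk₀ (ModuleCat.ofHom ((LinearMap.lsmul C R c).restrictScalars A))) (add_zero n) := by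
  rw [phi, phi, Ext.comp_assoc (a₁₂ := n) (a₂₃ := n) _ _ _ (by lia) (by lia) (by lia),
    ← resExt_mk₀, ← resExt_comp, ← lsmul_comp, resExt_comp, resExt_mk₀, mk₀_ofHom_comp_assoc]
  congr 3
  ext a'
  simp [Algebra.smul_def]

theorem lemmaL {n : ℕ} (hV : Van A A' R n) {j : ℕ} (hj : j ≤ n)
    (ξ : Ext (ModuleCat.of C C') (ModuleCat.of C R) j)
    (h : ∀ x : C', phi (A := A) (A' := A') ξ x = 0) : ξ = 0 := by
  let φ : C ⊗[A] A' →ₐ[C] C' :=
    Algebra.TensorProduct.lift (Algebra.ofId C C') (IsScalarTower.toAlgHom A A' C')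
      (fun _ _ => Commute.all _ _)
  let _ : Algebra (C ⊗[A] A') C' := φ.toRingHom.toAlgebra
  have : IsScalarTower C (C ⊗[A] A') C' := IsScalarTower.of_algebraMap_eq fun c => by
    change _ = φ (c ⊗ₜ 1)
    simp [φ]
  apply lemmaL_aux (A' := A') n hV j hj
  intro x
  rw [← h x, phi]
  congr 3
  ext a'
  change φ (1 ⊗ₜ a') * x = x * algebraMap A' C' a'
  simp [φ, mul_comm]

/-- The data used in the inductive step. -/
structure Ops (A C C' R : Type) [CommRing A] [CommRing C] [CommRing C'] [CommRing R]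
    [Algebra C C'] [Algebra A R] [Algebra C R] (I S : Type) where
  e : I → C'
  δ : I → S → Bool → C
  ε : I → Option (S × Bool) → (R →ₗ[A] R)
  h1 : ∀ i t b r, ε i (some (t, b)) (δ i t b • r) = ε i (some (t, b)) r
  h2 : ∀ r, {i | ∃ s, ε i s r ≠ r}.Finite
  h3 : ∀ r i, {t | ∃ b, ε i (some (t, b)) r ≠ ε i none r}.Finite
  h4 : ∀ i t, algebraMap C C' (δ i t true) * e i = algebraMap C C' (δ i t true)
  h5 : ∀ i t, algebraMap C C' (δ i t false) * e i = 0

lemma exists_not_mem {I X : Type} {κ : Cardinal.{0}} (hκ : ℵ₀ ≤ κ) (hI : κ < #I) (V : Set X)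
    (hV : #V ≤ κ) (B : X → Set I) (hB : ∀ x, (B x).Finite) : ∃ i, ∀ v ∈ V, i ∉ B v := by
  by_contra hcon
  push Not at hcon
  have h1 : (Set.univ : Set I) ⊆ ⋃ v : V, B v := by
    intro i _
    obtain ⟨v, hv, hi⟩ := hcon i
    exact Set.mem_iUnion.2 ⟨⟨v, hv⟩, hi⟩
  have h2 : #I ≤ κ := by
    rw [← Cardinal.mk_univ]
    refine (Cardinal.mk_le_mk_of_subset h1).trans ?_
    refine (Cardinal.mk_iUnion_le _).trans ?_
    refine (mul_le_mul' hV (ciSup_le' fun v => ?_)).trans (Cardinal.mul_eq_self hκ).le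
    exact (Cardinal.lt_aleph0_iff_set_finite.2 (hB v)).le.trans hκ
  exact absurd hI (not_lt.2 h2)

theorem step {I S : Type} (O : Ops A C C' R I S) {κ : Cardinal.{0}} (hκ : ℵ₀ ≤ κ) (hA : #A ≤ κ)
    (hA' : #A' ≤ κ) (hI : κ < #I) (hS : κ < #S) {n : ℕ} (hV : Van A A' R n) :
    Van C C' R (n + 1) := by
  intro j hj ξ
  apply lemmaL hV (Nat.lt_succ_iff.1 hj) ξ
  intro x
  -- the class `y = phi ξ x`
  obtain ⟨V, hVc, hVs⟩ := small hκ hA j A' hA' (phi (A := A) (A' := A') ξ x)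
  obtain ⟨i, hi⟩ := exists_not_mem hκ hI V hVc (fun r => {i | ∃ s, O.ε i s r ≠ r}) O.h2
  obtain ⟨V', hVc', hVs'⟩ := small hκ hA j A' hA' (phi (A := A) (A' := A') ξ (O.e i * x))
  obtain ⟨t, ht⟩ := exists_not_mem hκ hS V' hVc'
    (fun r => {t | ∃ b, O.ε i (some (t, b)) r ≠ O.ε i none r}) (fun r => O.h3 r i)
  simp only [Set.mem_setOf_eq, not_exists, not_not] at hi ht
  -- `y` does not depend on the coordinate `i`
  have y1 : ∀ s, (phi (A := A) (A' := A') ξ x).comp (Ext.mk₀ (ModuleCat.ofHom (O.ε i s)))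
      (add_zero j) = phi ξ x := by
    intro s
    rw [hVs (O.ε i s) LinearMap.id fun v hv => hi v hv s]
    exact Ext.comp_mk₀_id _
  have w1 : ∀ b, (phi (A := A) (A' := A') ξ (O.e i * x)).comp
      (Ext.mk₀ (ModuleCat.ofHom (O.ε i (some (t, b))))) (add_zero j) =
      (phi (A := A) (A' := A') ξ (O.e i * x)).comp
      (Ext.mk₀ (ModuleCat.ofHom (O.ε i none))) (add_zero j) :=
    fun b => hVs' _ _ fun v hv => ht v hv b
  have key : ∀ b (z : C'), (phi (A := A) (A' := A') ξ z).comp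
      (Ext.mk₀ (ModuleCat.ofHom (O.ε i (some (t, b))))) (add_zero j) =
      (phi (A := A) (A' := A') ξ (algebraMap C C' (O.δ i t b) * z)).comp
      (Ext.mk₀ (ModuleCat.ofHom (O.ε i (some (t, b))))) (add_zero j) := by
    intro b z
    rw [phi_mul, comp_mk₀_ofHom_assoc]
    congr 3
    ext r
    exact (O.h1 i t b r).symm
  have k1 := key true (O.e i * x)
  rw [← mul_assoc, O.h4, ← key true x, y1, w1] at k1
  have k2 := key false (O.e i * x)
  rw [← mul_assoc, O.h5, zero_mul, w1] at k2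
  rw [← k1, k2]
  have z0 : phi (A := A) (A' := A') ξ (0 : C') = 0 := by
    have e : ((LinearMap.mulLeft A (0 : C')) ∘ₗ
      (IsScalarTower.toAlgHom A A' C').toLinearMap) = 0 := by
      ext a'
      simp
    rw [phi, e]
    change (Ext.mk₀ 0).comp _ _ = _
    rw [Ext.mk₀_zero, Ext.zero_comp]
  rw [z0, Ext.zero_comp]

end

end Pool.Agent.Helper46.TT
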